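import Pool.Agent.Helper72.LSr.N1
import Pool.Agent.Helper72.LSr.C1

/-!
# LR-I9: the graph `G_Q` (`w` joined to `N_w \ Q`)
-/

namespace Pool.Agent.Helper50.LSr

open Finset
open scoped Classical
open Pool.Agent.Helper72.LSr

variable {V : Type} (G : SimpleGraph V) (S : Finset V)

private theorem K_x1 {w : V} (Q : Finset V) (r : ℕ) :
    K (dst G w Q) (insert w (nb G S w)) (r + 1)
      = K G (nb G S w) (r + 1) + K G (nb G S w \ Q) r :=
  K_dst_insert G (not_mem_nb_self G S w) (fun _ hx => ((mem_nb G).1 hx).2) Q r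

private theorem K_x1_two {w : V} {Q : Finset V} (hQ : Q ⊆ nb G S w) :
    K (dst G w Q) (insert w (nb G S w)) 2
      = K G (nb G S w) 2 + (nb G S w).card - Q.card := by
  rw [show (2 : ℕ) = 1 + 1 from rfl, K_x1 G S Q 1, K_one, card_sdiff_of_subset hQ,
    Nat.cast_sub (card_le_card hQ)]
  ring

private theorem card_x1 {w : V} :
    ((insert w (nb G S w)).card : ℤ) = (nb G S w).card + 1 := by
  rw [card_insert_of_notMem (not_mem_nb_self G S w)]
  push_cast
  ring

theorem x1_gS {w : V} (k A B : ℕ) {Q : Finset V} (hQ : Q ⊆ nb G S w) :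
    gS k A B (dst G w Q) (insert w (nb G S w))
      = Yv k (A + 1) B G S w + (Q.card - (k + 1 - Dv k (A + 1) B G S w)) := by
  unfold gS gg th nu Yv Dv
  rw [K_x1_two G S hQ, card_x1, es3_sA, EE_sA]
  ring

theorem x1_rS {w : V} (k A B : ℕ) {Q : Finset V} (hQ : Q ⊆ nb G S w) :
    rS k A B (dst G w Q) (insert w (nb G S w))
      = Dv k (A + 1) B G S w - Yv k (A + 1) B G S w - 1
        - (Q.card - (k + 1 - Dv k (A + 1) B G S w)) := by
  unfold rS rho th nu Yv Dv
  rw [K_x1_two G S hQ, card_x1, es3_sA, EE_sA]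
  ring

theorem x1_Phi {w : V} (k A B j : ℕ) {Q : Finset V} (hQ : Q ⊆ nb G S w) :
    Phi k A B (j + 2) (dst G w Q) (insert w (nb G S w))
      = Phi k A B (j + 2) G (nb G S w) + Phi k A B (j + 1) G (nb G S w)
        + gam k A B j G S w Q
        - k * es k A B (j + 1) * (Q.card - (k + 1 - Dv k (A + 1) B G S w))
        - es k A B (j + 1) * Yv k (A + 1) B G S w := by
  unfold Phi gam Vl th nu Yv Dv
  rw [K_x1_two G S hQ, card_x1, K_x1 G S Q (j + 2), es3_sA, EE_sA,
    show j + 2 = (j + 1) + 1 from rfl, es_sA]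
  ring

theorem x1_Phi' {w : V} (k A B j : ℕ) {Q : Finset V} (hQ : Q ⊆ nb G S w) :
    Phi k A B (j + 1) (dst G w Q) (insert w (nb G S w))
      = Phi k A B (j + 1) G (nb G S w)
        + es k A B (j + 1) * (Q.card - (k + 1 - Dv k (A + 1) B G S w))
        - aa k A B j G S w Q := by
  unfold Phi aa Vl th nu Dv
  rw [K_x1_two G S hQ, card_x1, K_x1 G S Q (j + 1), EE_sA,
    show j + 2 = (j + 1) + 1 from rfl, es_sA]
  ring

end Pool.Agent.Helper50.LSr
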