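import Pool.Agent.Helper72.LSr.S4

/-!
# LR-S5b: case (II.1)
-/

namespace Pool.Agent.Helper50.LSr

open Finset
open scoped Classical
open Pool.Agent.Helper72.LSr

variable {V : Type} {j : ℕ} {G : SimpleGraph V} {S : Finset V} {k A B : ℕ}

private theorem sq_low (u : V) (Q : Finset V) :
    sq k A (B + 1) G S u Q = sq k (A + 1) B G S u Q + Q.card := by
  unfold Pool.Agent.Helper72.LSr.sq
  rw [sum_congr rfl (fun x _ => cv_low G S k A B u x), sum_add_distrib]
  simp
  ring

private theorem Qf_subset_nb {w : V} (f : V → ℕ) (u : V) :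
    Qf G (NH G S w) f u ⊆ nb G S u := by
  intro x hx
  unfold Qf at hx
  rw [mem_filter] at hx
  unfold NH at hx
  rw [mem_filter] at hx
  rw [mem_nb]
  exact ⟨hx.1.1, hx.2.1⟩

/-- (II.1) -/
theorem case2_one (h : CE V j G S k A (B + 1)) (hY : ∀ v ∈ S, Yv k A (B + 1) G S v ≤ 0) {w : V}
    (hw : w ∈ S) (hw0 : Yv k A (B + 1) G S w = 0) : False := by
  obtain ⟨f, hf, -⟩ := exists_order (NH G S w) (fun _ => 0)
  have hl := es_nonneg k A B (j + 1)
  -- the vertex `w`
  have hDw := all_D_pos h w hw
  have e1 := Dv_low G S k A B w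
  have e2 := Yv_low G S k A B w
  have hcard : (nb G S w).card < S.card :=
    card_lt_card ⟨nb_subset G S w, fun hs => not_mem_nb_self G S w (hs hw)⟩
  have g1 := gS_nb G S k A B w
  have g2 := MS_nb G S k A B w
  have g3 := rS_nb G S k A B w
  have hPL : 0 ≤ Phi k A B (j + 2) G (nb G S w) :=
    Phi_nonneg (fun m => h.th2 _ m (by exact_mod_cast hcard)) h.hk (by linarith) (by linarith)
  have hkap : 0 ≤ Phi k A B (j + 1) G (nb G S w) :=
    Phi_nonneg (fun m => h.th1 _ m) h.hk (by linarith) (by linarith)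
  -- the other vertices
  have hcon : ∀ u ∈ NH G S w,
      es k A B (j + 1) * (Yv k A (B + 1) G S u - (Qf G (NH G S w) f u).card)
        ≤ con k A B j G S u (Qf G (NH G S w) f u) := by
    intro u hu
    have huS : u ∈ S := by
      unfold NH at hu
      exact (mem_filter.1 hu).1
    have hQ := Qf_subset_nb (G := G) (S := S) (w := w) f u
    set Q := Qf G (NH G S w) f u with hQdef
    have hDu := all_D_pos h u huS
    have hYu := hY u huS
    have d1 := Dv_low G S k A B u
    have d2 := Yv_low G S k A B u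
    have hs := sq_low (G := G) (S := S) (k := k) (A := A) (B := B) u Q
    have hs0 : 0 ≤ sq k A (B + 1) G S u Q := by
      unfold Pool.Agent.Helper72.LSr.sq
      have h1 := cl_b h huS hDu hYu
      have h2 : 0 ≤ ∑ x ∈ Q, cv k A (B + 1) G S u x :=
        sum_nonneg (fun x hx => le_trans zero_le_one (h1 x (hQ hx)))
      have h3 := K_nonneg G Q 2
      linarith
    have c1 := gS_nb_sdiff G S k A B huS hQ
    have c2 := MS_nb_sdiff G S k A B hQ
    have c3 := rS_eq (G := G) (S := nb G S u \ Q) k A B
    have hq : (0 : ℤ) ≤ Q.card := by positivity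
    unfold con
    by_cases hg : 0 ≤ gS k A B G (nb G S u \ Q)
    · have h1 := Phi_nonneg (i := j + 1) (G := G) (S := nb G S u \ Q) (fun m => h.th1 _ m) h.hk
        (by linarith) hg
      have h2 : es k A B (j + 1) * (Yv k A (B + 1) G S u - Q.card)
          ≤ es k A B (j + 1) * sq k (A + 1) B G S u Q :=
        mul_le_mul_of_nonneg_left (by linarith) hl
      linarith
    · push Not at hg
      have h1 := Phi_cheap (i := j + 1) (G := G) (S := nb G S u \ Q) (fun m => h.th1 _ m) h.hk
        (le_of_lt hg) (by linarith)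
      rw [c1] at h1
      have h2 : es k A B (j + 1) * (Yv k A (B + 1) G S u - Q.card)
          ≤ es k A B (j + 1) * Yv k (A + 1) B G S u :=
        mul_le_mul_of_nonneg_left (by linarith) hl
      linarith
  have hsum := sum_le_sum hcon
  rw [← mul_sum, sum_sub_distrib] at hsum
  have hlast : ∑ u ∈ NH G S w, ((Qf G (NH G S w) f u).card : ℤ) = K G (NH G S w) 2 := by
    rw [show (2 : ℕ) = 1 + 1 from rfl, K_last G (NH G S w) f hf 1]
    exact sum_congr rfl (fun u _ => (K_one G _).symm)
  rw [hlast] at hsum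
  -- the identity
  have hid := id_one G S hw k A B j f hf
  have hE2 := id_E2 G S hw k A (B + 1)
  have hNH := card_NH G S hw k A (B + 1)
  have hYs : ∑ u ∈ NH G S w, Yv k (A + 1) B G S u
      = ∑ u ∈ NH G S w, Yv k A (B + 1) G S u + ∑ u ∈ NH G S w, Dv k A (B + 1) G S u
        - (NH G S w).card := by
    have : ∀ u ∈ NH G S w, Yv k (A + 1) B G S u
        = Yv k A (B + 1) G S u + Dv k A (B + 1) G S u - 1 := by
      intro u _
      have d1 := Dv_low G S k A B u
      have d2 := Yv_low G S k A B u
      linarith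
    rw [sum_congr rfl this, sum_sub_distrib, sum_add_distrib]
    simp
  have hrg := rS_add_gS G S k A (B + 1)
  have hgl := gS_low G S k A B
  have hPhi := Phi_low G S k A B (j + 1)
  rw [show j + 1 + 1 = j + 2 from rfl] at hPhi
  have hP := h.hP
  have key : ∑ u ∈ NH G S w, Yv k (A + 1) B G S u + Yv k (A + 1) B G S w
      - k * Yv k (A + 1) B G S w
      = ∑ u ∈ NH G S w, Yv k A (B + 1) G S u + gS k A (B + 1) G S - K G (NH G S w) 2 := by
    have hYw : Yv k (A + 1) B G S w = Dv k A (B + 1) G S w - 1 := by linarith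
    rw [hYs, hYw]
    linear_combination hE2 - hNH - hw0 - hrg
  rw [key] at hid
  have hPhi' : Phi k (A + 1) B (j + 2) G S
      = Phi k A (B + 1) (j + 2) G S - es k A B (j + 1) * gS k A (B + 1) G S := by
    rw [hgl]
    linear_combination -hPhi
  rw [hPhi'] at hid
  nlinarith

end Pool.Agent.Helper50.LSr
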